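import Pool.Agent.Y456.GJ.Final

/-!
# Jets of the logarithm of the Gamma function at points of number fields

The numbers `ζ(k, x) = ∑_{m ≥ 0} 1 / (m + x)^k`, `k ≥ 2`, are, up to the factors `(-1)^k (k - 1)!`, the derivatives of
`ψ = Γ' / Γ` at `x`; for `x = 1` we have `-ψ(1) = γ` and `ζ(k, 1) = ζ(k)`, and `ζ(3, 1/2) = 7 ζ(3)`. The question whether
`ζ(3)` is transcendental is a question about one point of this family. We show that almost no algebraic point `x` is
exceptional: for `n`-tuples of points of height at most `T` of number fields of degree at most `m`, the numbers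
`Γ(x_j)`, `-ψ(x_j)`, `ζ(2, x_j)`, …, `ζ(w, x_j)` satisfy a relation of bounded degree with coefficients of height at most
`T ^ A`, relative to an arbitrary finite system of complex constants (for instance the monomials up to a given degree in
`π`, `γ`, `ζ(3)`, `ζ(5)`, …), only for a proportion of about `T ^ ε / N` of the tuples, `N` being the number of points.

Proof: `Γ`, `ψ` and the `ζ(k, x)` are algebraically independent over `ℂ(x)` (Hölder; here by the difference equations), and
the general theorem of helper124 (`Pool.Agent.Y124.excNF`) applies.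
-/

set_option autoImplicit false

open NumberField

namespace Pool.Agent.Results.MP_48b3e2_nt.GammaJets

/-- The numbers `Γ(x_j)`, index `(j, none)`; `-ψ(x_j)`, index `(j, some 0)`; and
`ζ(i + 1, x_j) = ∑_{k ≥ 0} 1 / (x_j + k)^(i + 1)`, index `(j, some i)`, `1 ≤ i < w`. -/
noncomputable def values {n w : ℕ} (x : Fin n → ℂ) (z : Fin n × Option (Fin w)) : ℂ :=
  match z.2 with
  | none => Complex.Gamma (x z.1)
  | some i => if (i : ℕ) = 0 then -Complex.digamma (x z.1) else ∑' k : ℕ, 1 / (x z.1 + k) ^ ((i : ℕ) + 1)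

/-- The elements of the number field `F` with image in `L` which are quotients of two integers of `F` all of whose
conjugates have absolute value at most `T`. -/
def Points (F : Type) [Field F] [NumberField F] (ι : F →+* ℂ) (L : Set ℂ) (T : ℝ) : Set F :=
  {x | ι x ∈ L ∧ ∃ a b : 𝓞 F, b ≠ 0 ∧ (∀ φ : F →+* ℂ, ‖φ a‖ ≤ T ∧ ‖φ b‖ ≤ T) ∧ x = a / b}

/-- The `n`-tuples `x` of points of `F` for which there is a polynomial `P` of degree at most `d` in each of `n (w + 1)`
variables, with coefficients of the form `∑ ξ_i ι(c_i)`, where the `c_i` are integers of `F` all of whose conjugates have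
absolute value at most `T ^ A`, such that the value of `P` at the numbers `values` is at most `T ^ (-B)` times the
absolute value of some nonzero coefficient of `P`. -/
def Exceptional (n w d : ℕ) {g : ℕ} (F : Type) [Field F] [NumberField F] (ι : F →+* ℂ) (ξ : Fin g → ℂ) (L : Set ℂ)
    (A B T : ℝ) : Set (Fin n → F) :=
  {x | (∀ j, x j ∈ Points F ι L T) ∧ ∃ P : MvPolynomial (Fin n × Option (Fin w)) ℂ, (∀ z, P.degreeOf z ≤ d) ∧
    (∀ s, ∃ c : Fin g → 𝓞 F, (∀ i (φ : F →+* ℂ), ‖φ (c i)‖ ≤ T ^ A) ∧ P.coeff s = ∑ i, ξ i * ι (c i)) ∧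
    ∃ s₀, P.coeff s₀ ≠ 0 ∧ ‖MvPolynomial.aeval (values fun j => ι (x j)) P‖ ≤ T ^ (-B) * ‖P.coeff s₀‖}

/-- Let `L` be a compact subset of `ℂ` without `0, -1, -2, …`. For all `m`, `n`, `w`, `g`, `d`, `A` and `ε > 0` there are
`B`, `C`, `T₀` such that for every number field `F` of degree at most `m`, every embedding of `F` in `ℂ`, all complex
numbers `ξ_1, …, ξ_g` and all `T ≥ T₀` the number of exceptional `n`-tuples is at most `C T^ε N^(n - 1)`, where `N` is the
number of points. -/
theorem result (m n w g d : ℕ) (L : Set ℂ) (hL : IsCompact L) (hL' : ∀ x ∈ L, ∀ k : ℕ, x ≠ -k) (A ε : ℝ)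
    (hε : 0 < ε) :
    ∃ B C T₀ : ℝ, ∀ (F : Type) [Field F] [NumberField F], Module.finrank ℚ F ≤ m → ∀ (ι : F →+* ℂ) (ξ : Fin g → ℂ)
      (T : ℝ), T₀ ≤ T → (Exceptional n w d F ι ξ L A B T).Finite ∧
        ((Exceptional n w d F ι ξ L A B T).ncard : ℝ) ≤ C * T ^ ε * ((Points F ι L T).ncard : ℝ) ^ (n - 1) := by
  classical
  obtain ⟨B, C, T₀, hC, hT₀, H⟩ := Y456.GJ.main (h := Fin g) m n d w L hL (fun x hx => hL' x hx) A ε hε
  refine ⟨B, C, T₀, fun F _ _ hF ι ξ T hT => ?_⟩
  have hT0 : 0 ≤ T := by linarith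
  have hP : Points F ι L T = {x : F | Y120.HtLe F T x ∧ ι x ∈ L} := by
    ext x
    constructor
    · rintro ⟨h1, a, b, hb, hab, hx⟩
      exact ⟨⟨a, b, hb, Y120.house_le F hT0 fun φ => (hab φ).1, Y120.house_le F hT0 fun φ => (hab φ).2, hx⟩, h1⟩
    · rintro ⟨⟨a, b, hb, ha, hb', hx⟩, h1⟩
      exact ⟨h1, a, b, hb, fun φ => ⟨(Y120.house_ge F _ φ).trans ha, (Y120.house_ge F _ φ).trans hb'⟩, hx⟩
  have hsub : Exceptional n w d F ι ξ L A B T ⊆
      Y124.ExcNF n d F ι ξ (fun t (i : Option (Fin w)) => Y456.GJ.jf i t) L A B T := by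
    rintro x ⟨hx, P, hPd, hPc, s₀, hs₀, hs⟩
    refine ⟨fun j => ?_, P, hPd, hPc, s₀, hs₀, ?_⟩
    · have h1 := hx j
      rw [hP] at h1
      exact h1
    · have h1 : (fun z : Fin n × Option (Fin w) => Y456.GJ.jf z.2 (ι (x z.1))) = values fun j => ι (x j) := by
        funext ⟨j, i⟩
        rcases i with _ | i
        · rfl
        · rfl
      rw [h1]
      exact hs
  obtain ⟨h1, h2⟩ := H F hF ι ξ T hT
  refine ⟨h1.subset hsub, ?_⟩
  rw [hP]
  exact le_trans (by exact_mod_cast Set.ncard_le_ncard hsub h1) h2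

end Pool.Agent.Results.MP_48b3e2_nt.GammaJets
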