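import Pool.Agent.Y294.OS.Hur
import Pool.Agent.Y627.KW.Main

/-!
# Values of the Hurwitz zeta functions, of `Γ` and of its logarithmic derivative at rational and algebraic numbers

`ζ (3)` is the value at `z = 1` of the Hurwitz zeta function `ζ (3, z) = ∑ 1 / (m + z) ^ 3`, `m ≥ 0`. The theorem below
says that for almost all rational numbers `q` the number `ζ (3, q)` is transcendental and algebraically independent of
`π`, `Γ (q)`, `Γ' (q) / Γ (q)`, `ζ (2, q)`, `ζ (4, q)`, …, as far as relations of bounded degree and of height at most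
`T ^ A` are concerned: of the (about `T ^ 2`) rational numbers `q` of height at most `T` in a compact set (avoiding the
poles) at most `C T ^ ε` are exceptions.

More generally let `k` be a number field in `ℂ`, let `γ_1, …, γ_p` be complex numbers no two of which are congruent
modulo `ℤ` and let `λ_1, …, λ_r` be real numbers which are linearly independent over `ℚ`. For `x = (x_1, …, x_n)` in
`k ^ n` we consider the numbers `π`, `Γ (x_j + γ_i)`, `exp (λ_l x_j)`, `Γ' / Γ (x_j + γ_i)` and `ζ (s, x_j + γ_i)`,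
`2 ≤ s ≤ w`. The `n`-tuples of height at most `T`, with the `x_j` in compact sets avoiding the poles, at which these
numbers satisfy a relation (even an approximate one) of degree at most `d` with coefficients in `k` of height at most
`T ^ A` lie on at most `C T ^ ε` hypersurfaces of degree at most `D`. (Hypersurfaces such as `x_1 = x_2 + 1` have to be
excluded.)

Proof: the general counting theorem of helper124, helper771 and helper627 reduces this to the algebraic independence of
these functions of `z` over `ℂ (z)`. This is proved in `Pool.Agent.Y294.OS` by a difference analogue of the theorem of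
Ostrowski and Kolchin: all these functions satisfy `f (z + 1) = h (z) f (z)` or `f (z + 1) = f (z) + g (z)` with rational
`h`, `g`, and an ideal of relations which is stable under the corresponding substitutions is zero, since no nontrivial
product of the functions `h` is of the form `c v (z + 1) / v (z)` and no nontrivial linear combination of the functions
`g` is of the form `v (z + 1) - v (z)`, `v` rational.
-/

set_option autoImplicit false

namespace Pool.Agent.Results.MP_48b3e2_nt.HurwitzValues

/-- The value of the Hurwitz zeta function, `∑ 1 / (m + z) ^ s` over all integers `m ≥ 0`. -/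
noncomputable def hurwitz (s : ℕ) (z : ℂ) : ℂ := ∑' m : ℕ, 1 / ((m : ℂ) + z) ^ s

/-- The numbers `π`, `Γ (x_j + γ_i)`, `exp (λ_l x_j)`, `Γ' / Γ (x_j + γ_i)` and `ζ (s, x_j + γ_i)`, `2 ≤ s ≤ w`, where
`x_j` is read as a complex number by the embedding `σ`. -/
noncomputable def numbers {k : Type} [Field k] (σ : k →+* ℂ) {n p r w : ℕ} (γ : Fin p → ℂ) (lam : Fin r → ℝ)
    (x : Fin n → k) : Option (Fin n × ((Fin p ⊕ Fin r) ⊕ (Fin p × Fin w))) → ℂ
  | none => (Real.pi : ℂ)
  | some (j, Sum.inl (Sum.inl i)) => Complex.Gamma (σ (x j) + γ i)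
  | some (j, Sum.inl (Sum.inr l)) => Complex.exp (lam l * σ (x j))
  | some (j, Sum.inr (i, s)) =>
      if (s : ℕ) = 0 then deriv Complex.Gamma (σ (x j) + γ i) / Complex.Gamma (σ (x j) + γ i)
      else hurwitz ((s : ℕ) + 1) (σ (x j) + γ i)

/-- The `n`-tuples `x` of elements of `k`, of height at most `T` and with `σ x_j ∈ K_j`, for which some nonzero
polynomial with coefficients in `k` of height at most `T ^ A`, of degree at most `d` in each variable, takes at the
`n (p + r + p w) + 1` numbers a value of absolute value at most `T ^ (-B)`. -/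
def Exceptional {k : Type} [Field k] [NumberField k] (σ : k →+* ℂ) {n p r : ℕ} (d w : ℕ) (γ : Fin p → ℂ)
    (lam : Fin r → ℝ) (K : Fin n → Set ℂ) (A B T : ℝ) : Set (Fin n → k) :=
  {x | (∀ j, σ (x j) ∈ K j ∧ Height.mulHeight₁ (x j) ≤ T) ∧
    ∃ P : MvPolynomial (Option (Fin n × ((Fin p ⊕ Fin r) ⊕ (Fin p × Fin w)))) k, P ≠ 0 ∧ (∀ i, P.degreeOf i ≤ d) ∧
      (∀ e, Height.mulHeight₁ (P.coeff e) ≤ T ^ A) ∧
      ‖MvPolynomial.eval₂ σ (numbers σ γ lam x) P‖ ≤ T ^ (-B)}

/-- **Main result.** Let `k` be a number field with an embedding `σ` in `ℂ`, `n ≥ 1`, let `γ_1, …, γ_p` be complex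
numbers no two of which are congruent modulo `ℤ`, let `λ_1, …, λ_r` be real numbers which are linearly independent over
`ℚ`, and let `K_1, …, K_n` be compact subsets of `ℂ` on which no `z + γ_i` is one of the numbers `0, -1, -2, …`. For all
`d`, `w`, `A` and `ε > 0` there are `D`, `B` and `C` such that for all `T ≥ 1` the exceptional `n`-tuples are zeros of at
most `C T ^ ε` nonzero polynomials of degree at most `D`, and their number is at most `C T ^ ε N (T) ^ (n - 1)`, where
`N (T)` is the number of elements of `k` of height at most `T`. -/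
theorem result (k : Type) [Field k] [NumberField k] (σ : k →+* ℂ) (n p r d w : ℕ) (hn : 1 ≤ n)
    (γ : Fin p → ℂ) (hγ : ∀ i j, i ≠ j → ∀ m : ℤ, γ i ≠ γ j + m)
    (lam : Fin r → ℝ) (hlam : ∀ c : Fin r → ℤ, ∑ l, (c l : ℝ) * lam l = 0 → c = 0)
    (K : Fin n → Set ℂ) (hK : ∀ j, IsCompact (K j)) (hKs : ∀ j, ∀ z ∈ K j, ∀ i, ∀ m : ℕ, z + γ i ≠ -m)
    (A ε : ℝ) (hε : 0 < ε) :
    ∃ (D : ℕ) (B C : ℝ), ∀ T : ℝ, 1 ≤ T →
      (∃ Φ : Finset (MvPolynomial (Fin n) k), (Φ.card : ℝ) ≤ C * T ^ ε ∧ (∀ R ∈ Φ, R ≠ 0 ∧ R.totalDegree ≤ D) ∧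
        ∀ x ∈ Exceptional σ d w γ lam K A B T, ∃ R ∈ Φ, MvPolynomial.eval x R = 0) ∧
      (Exceptional σ d w γ lam K A B T).Finite ∧
      ((Exceptional σ d w γ lam K A B T).ncard : ℝ) ≤
        C * T ^ ε * ({x : k | Height.mulHeight₁ x ≤ T}.ncard : ℝ) ^ (n - 1) := by
  obtain ⟨D, B, C, h⟩ := Pool.Agent.Y627.KW.main σ n d hn
    (fun _ : Fin n => Pool.Agent.Y294.OS.fh (w := w) γ lam) (fun _ => Pool.Agent.Y294.OS.Sh γ) K
    (fun _ => Pool.Agent.Y294.OS.Sh_pre γ) hK (fun j z hz => hKs j z hz)
    (fun _ y => Pool.Agent.Y294.OS.fh_an γ lam y)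
    (fun _ => fun P hP => Pool.Agent.Y294.OS.fh_indep γ hγ lam hlam P hP) A ε hε
  refine ⟨D, B, C, fun T hT => ?_⟩
  have hset : Exceptional σ d w γ lam K A B T = Pool.Agent.Y627.KW.ExcW σ d
      (fun _ : Fin n => Pool.Agent.Y294.OS.fh (w := w) γ lam) K A B T := by
    have heq : ∀ x : Fin n → k, numbers (w := w) σ γ lam x = Pool.Agent.Y627.KW.numW σ
        (fun _ : Fin n => Pool.Agent.Y294.OS.fh (w := w) γ lam) x := by
      intro x
      funext i
      rcases i with _ | ⟨j, (i | l) | ⟨i, s⟩⟩
      · rfl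
      · rfl
      · rfl
      · rfl
    ext x
    simp only [Exceptional, Pool.Agent.Y627.KW.ExcW, Set.mem_ofPred_eq, heq]
  rw [hset]
  exact h T hT

end Pool.Agent.Results.MP_48b3e2_nt.HurwitzValues
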