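import Pool.Agent.Y922.ZF.LerchI

/-!
# Values of Hurwitz-Lerch zeta functions at almost all algebraic points

The function `Φ(z, k, s) = ∑ z^n / (n + s)^k`, `n ≥ 0`, has the special values `ζ(3) = Φ(1, 3, 1) = (4/3) Φ(-1, 3, 1)`,
the polylogarithms `Li_k(z) = z Φ(z, k, 1)`, Catalan's constant `Φ(-1, 2, 1/2) / 4` and the Hurwitz zeta functions
`ζ(k, s) = Φ(1, k, s)`. We show for arbitrary distinct pairs `(z_j, k_j)`, `0 < |z_j| ≤ 1`, that relative to arbitrary
constants the (approximate) polynomial relations of bounded degree and polynomially bounded height between the numbers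
`π^s` and `Φ(z_j, k_j, s)` hold only at few algebraic points (tuples of points) `s`. The proof contains the algebraic
independence over `ℂ(s, π^s)` of the functions `s ↦ Φ(z_j, k_j, s)`.
-/

set_option autoImplicit false

open NumberField

namespace Pool.Agent.Results.MP_48b3e2_nt.LerchZetaValues

/-- The elements of the number field `F` with image in `K` which are quotients of two integers of `F` all of whose
conjugates have absolute value at most `T`. -/
def Points (F : Type) [Field F] [NumberField F] (ι : F →+* ℂ) (K : Set ℂ) (T : ℝ) : Set F :=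
  {x | ι x ∈ K ∧ ∃ a b : 𝓞 F, b ≠ 0 ∧ (∀ φ : F →+* ℂ, ‖φ a‖ ≤ T ∧ ‖φ b‖ ≤ T) ∧ x = a / b}

/-- The numbers `β_l^s` and `Φ(z_j, k_j, s) = ∑_{n ≥ 0} z_j^n / (n + s)^(k_j)`. -/
noncomputable def values {h q : ℕ} (β : Fin h → ℝ) (z : Fin q → ℂ) (k : Fin q → ℕ) (s : ℂ) : Fin h ⊕ Fin q → ℂ
  | Sum.inl l => (β l : ℂ) ^ s
  | Sum.inr j => ∑' n : ℕ, z j ^ n / ((n : ℂ) + s) ^ k j

/-- The `n`-tuples `t` of points of `F` for which there is a polynomial `P` of degree at most `d` in each variable, with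
coefficients of the form `∑ ξ_i ι(c_i)`, where the `c_i` are integers of `F` all of whose conjugates have absolute value
at most `T ^ A`, such that the value of `P` at the numbers `values β z k (t_j)`, `j ≤ n`, is at most `T ^ (-B)` times the
absolute value of some nonzero coefficient of `P`. -/
def Exceptional {h q : ℕ} (β : Fin h → ℝ) (z : Fin q → ℂ) (k : Fin q → ℕ) (n d : ℕ) {g : ℕ} (F : Type) [Field F] [NumberField F] (ι : F →+* ℂ)
    (ξ : Fin g → ℂ) (K : Set ℂ) (A B T : ℝ) : Set (Fin n → F) :=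
  {t | (∀ j, t j ∈ Points F ι K T) ∧ ∃ P : MvPolynomial (Fin n × (Fin h ⊕ Fin q)) ℂ,
    (∀ x, P.degreeOf x ≤ d) ∧
    (∀ s, ∃ c : Fin g → 𝓞 F, (∀ i (φ : F →+* ℂ), ‖φ (c i)‖ ≤ T ^ A) ∧ P.coeff s = ∑ i, ξ i * ι (c i)) ∧
    ∃ s₀, P.coeff s₀ ≠ 0 ∧
      ‖MvPolynomial.aeval (fun x : Fin n × (Fin h ⊕ Fin q) => values β z k (ι (t x.1)) x.2) P‖ ≤
        T ^ (-B) * ‖P.coeff s₀‖}

/-- Let `β_1, …, β_h` be positive real numbers such that `∏ β_l ^ v_l` is irrational for all nonzero `v ∈ ℤ^h` (for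
instance `h = 1` and `β_1 = π`, see `Y922.ZF.pi_ok`), let `(z_1, k_1), …, (z_q, k_q)` be distinct pairs of complex
numbers `z_j` and integers `k_j` with `0 < |z_j| < 1` and `k_j ≥ 1`, or `|z_j| = 1` and `k_j ≥ 2`, and let `K` be a
compact set in `ℂ` which contains none of the numbers `0, -1, -2, …`. For all `m`, `n`, `g`, `d`, `A` and `ε > 0` there
are `B`, `C`, `T₀` such that for every number field `F` of degree at most `m`, every embedding of `F` in `ℂ`, all complex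
numbers `ξ_1, …, ξ_g` and all `T ≥ T₀` the number of exceptional `n`-tuples is at most `C T^ε N^(n - 1)`, where `N` is
the number of points. -/
theorem result {h q : ℕ} (β : Fin h → ℝ) (hβ0 : ∀ l, 0 < β l)
    (hβ : ∀ v : Fin h → ℤ, (∃ x : ℚ, ∏ l, β l ^ v l = x) → v = 0) (z : Fin q → ℂ) (k : Fin q → ℕ)
    (hz0 : ∀ j, z j ≠ 0) (hz : ∀ j, (‖z j‖ < 1 ∧ 1 ≤ k j) ∨ (‖z j‖ = 1 ∧ 2 ≤ k j))
    (hinj : Function.Injective fun j => (z j, k j)) (m n g d : ℕ) (K : Set ℂ) (hK : IsCompact K)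
    (hKU : ∀ s ∈ K, ∀ i : ℕ, s ≠ -i) (A ε : ℝ) (hε : 0 < ε) :
    ∃ B C T₀ : ℝ, ∀ (F : Type) [Field F] [NumberField F], Module.finrank ℚ F ≤ m → ∀ (ι : F →+* ℂ) (ξ : Fin g → ℂ)
      (T : ℝ), T₀ ≤ T → (Exceptional β z k n d F ι ξ K A B T).Finite ∧
        ((Exceptional β z k n d F ι ξ K A B T).ncard : ℝ) ≤ C * T ^ ε * ((Points F ι K T).ncard : ℝ) ^ (n - 1) := by
  have hpar : Y922.ZF.LPar z k := by
    refine ⟨fun j => ?_, hz0, hinj⟩
    rcases hz j with h1 | h1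
    · exact ⟨h1.2, h1.1.le, Or.inl h1.1⟩
    · exact ⟨by omega, h1.1.le, Or.inr h1.2⟩
  classical
  obtain ⟨B, C, T₀, hC, hT₀, H⟩ := Y124.excNF (h := Fin g) m n d (Y922.ZF.vL β z k) K (fun g' => Y922.ZF.oneL g' hpar β hβ0 hβ K hK hKU) A ε hε
  refine ⟨B, C, T₀, fun F _ _ hF ι ξ T hT => ?_⟩
  have hT0 : 0 ≤ T := by linarith
  have hP : Points F ι K T = {x : F | Y120.HtLe F T x ∧ ι x ∈ K} := by
    ext x
    constructor
    · rintro ⟨h1, a, b, hb, hab, hx⟩
      exact ⟨⟨a, b, hb, Y120.house_le F hT0 fun φ => (hab φ).1, Y120.house_le F hT0 fun φ => (hab φ).2, hx⟩, h1⟩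
    · rintro ⟨⟨a, b, hb, ha, hb', hx⟩, h1⟩
      exact ⟨h1, a, b, hb, fun φ => ⟨(Y120.house_ge F _ φ).trans ha, (Y120.house_ge F _ φ).trans hb'⟩, hx⟩
  have hval : ∀ (s : ℂ) y, values β z k s y = (Y922.ZF.vL β z k) s y := by
    intro s y
    rcases y with l | j <;> rfl
  have hsub : Exceptional β z k n d F ι ξ K A B T ⊆ Y124.ExcNF n d F ι ξ ((Y922.ZF.vL β z k)) K A B T := by
    rintro t ⟨ht, P, hPd, hPc, s₀, hs₀, hs⟩
    refine ⟨fun j => ?_, P, hPd, hPc, s₀, hs₀, ?_⟩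
    · have h1 := ht j
      rw [hP] at h1
      exact h1
    · simp only [hval] at hs
      exact hs
  obtain ⟨h1, h2⟩ := H F hF ι ξ T hT
  refine ⟨h1.subset hsub, ?_⟩
  rw [hP]
  exact le_trans (by exact_mod_cast Set.ncard_le_ncard hsub h1) h2

end Pool.Agent.Results.MP_48b3e2_nt.LerchZetaValues
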