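import Pool.Agent.Y918.QC.Appl

/-!
# Short sums of odd zeta values without relations of bounded degree

For all `k`, `D`, `N` there is a `c > 0` such that for all large `s`, all rational vector spaces
`W ⊆ ℂ` of dimension at most `N` (for example the space generated by `1, π, …, π ^ (N - 1)`) and all
`y ∈ ℂ ^ k` (for example `y = (ζ(3), 0, …, 0)`) at least `(c √(s log log s / log s)) ^ k` of the
`k`-tuples of sets `S j` of at most `N D (D + 1) ^ k + 1` odd integers between `3` and `s` have the
following property: the numbers `y j + ∑ i ∈ S j, ζ(i)` satisfy no nonzero polynomial relation of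
degree at most `D` in every variable with coefficients in `W`.

The proof combines the theorem of the starting files on odd zeta values outside subspaces of small
dimension (`Pool/Agent/Results/MP_a89d6d_nt/OutsideSubspaces.lean`) with a new grid theorem
(`Pool/Agent/Y918/QC/Cube.lean`, `Pool/Agent/Y918/QC/Short.lean`): for all `D`, `N` there is a `B`
such that for every rational space `W` of dimension at most `N` and `N D (D + 1)` families of `B`
rationally independent numbers some sum of `z₀` and of at most one number of every family is a root
of no nonzero polynomial of degree at most `D` with coefficients in `W`.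
-/

set_option autoImplicit false

namespace Pool.Agent.Results.MP_48b3e2_nt.ShortSums

/-- The odd integers from `3` to `s`. -/
def oddUpTo (s : ℕ) : Finset ℕ := (Finset.Icc 3 s).filter (fun i => Odd i)

/-- The numbers `z 0, …, z (k - 1)` satisfy a nonzero polynomial relation of degree at most `D` in
every variable with coefficients in the rational vector space `W`. -/
def Related (W : Submodule ℚ ℂ) (D : ℕ) {k : ℕ} (z : Fin k → ℂ) : Prop :=
  ∃ p : MvPolynomial (Fin k) ℂ, p ≠ 0 ∧ (∀ m, p.coeff m ∈ W) ∧ (∀ j, p.degreeOf j ≤ D) ∧
    MvPolynomial.eval z p = 0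

open Classical in
/-- **Short sums of odd zeta values without relations of bounded degree.** -/
theorem result (k D N : ℕ) : ∃ c : ℝ, 0 < c ∧ ∃ s₀ : ℕ, ∀ s ≥ s₀,
    ∀ W : Submodule ℚ ℂ, Module.Finite ℚ W → Module.finrank ℚ W ≤ N → ∀ y : Fin k → ℂ,
    (c * Real.sqrt (s * Real.log (Real.log s) / Real.log s)) ^ k ≤
      (((Fintype.piFinset fun _ : Fin k =>
        (oddUpTo s).powerset.filter (fun S => S.card ≤ N * D * (D + 1) ^ k + 1)).filter
        (fun S => ¬ Related W D
          (fun j => y j + ∑ i ∈ S j, riemannZeta ((i : ℕ) : ℂ)))).card : ℝ) :=
  Pool.Agent.Y918.QC.zeta_short k D N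

end Pool.Agent.Results.MP_48b3e2_nt.ShortSums
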